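import Pool.Agent.Lib.MP_70c3c6_co.EQ.Spec

/-!
MP_70c3c6_co, equality case, ANA: the analytic part.
-/

set_option autoImplicit false
open Classical

namespace Pool.Agent.Lib.MP_70c3c6_co.EQ

namespace ANAM

variable {ι : Type} [Fintype ι] {x y τ : ι → ℂ} {E : Finset ℂ}

theorem slope (S : Sys x y τ E) {i j : ι} (hij : j ≠ i) :
    x j - x i ≠ 0 ∧ (x j - x i) * ms x y i j = y j - y i := by
  have hD : x j - x i ≠ 0 := sub_ne_zero.mpr fun h => hij (S.inj h)
  refine ⟨hD, ?_⟩
  unfold ms
  rw [mul_div_cancel₀ _ hD]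

theorem pair (S : Sys x y τ E) {a1 b1 c1 a2 b2 c2 : ℂ} (ha : a1 ≠ 0)
    (hdet : a1 * b2 - a2 * b1 ≠ 0)
    (ht : ∀ i, (a1 * x i + b1 * y i + c1) * (a2 + b2 * τ i) +
      (a2 * x i + b2 * y i + c2) * (a1 + b1 * τ i) = 0) {i j : ι} (hij : i ≠ j)
    (hi : a1 * x i + b1 * y i + c1 = 0) (hj : a1 * x j + b1 * y j + c1 = 0) : False := by
  have key : ∀ i j : ι, i ≠ j → a1 * x i + b1 * y i + c1 = 0 →
      a1 * x j + b1 * y j + c1 = 0 → a2 * x i + b2 * y i + c2 = 0 := by
    intro i j hij hi hj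
    obtain ⟨hD, hm⟩ := slope S (Ne.symm hij)
    have h1 : a1 + b1 * ms x y i j = 0 := by
      have : (x j - x i) * (a1 + b1 * ms x y i j) = 0 := by
        linear_combination hj - hi + b1 * hm
      exact (mul_eq_zero.mp this).resolve_left hD
    have h2 := ht i
    rw [hi, zero_mul, zero_add] at h2
    by_contra h3
    have h4 := (mul_eq_zero.mp h2).resolve_left h3
    have h5 : b1 * (ms x y i j - τ i) = 0 := by linear_combination h1 - h4
    rcases mul_eq_zero.mp h5 with h6 | h6
    · rw [h6, zero_mul, add_zero] at h1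
      exact ha h1
    · exact S.tang i j hij (sub_eq_zero.mp h6)
  have e1 := key i j hij hi hj
  have e2 := key j i (Ne.symm hij) hj hi
  apply hij
  apply S.inj
  have h3 : (a1 * b2 - a2 * b1) * (x i - x j) = 0 := by
    linear_combination b2 * (hi - hj) - b1 * (e1 - e2)
  exact sub_eq_zero.mp ((mul_eq_zero.mp h3).resolve_left hdet)

end ANAM

open ANAM in
theorem specANA (hPRD : SpecPRD) (hSLP : SpecSLP) (hCON : SpecCON) (hHYP : SpecHYP)
    (hPAR : SpecPAR) : SpecANA := by
  intro ι _ x y τ E i0 i1 S hn hx0 hy0 hx1 hy1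
  obtain ⟨g, hg0, hg⟩ := hSLP ι x y τ E S
  have hi01 : i1 ≠ i0 := by
    intro h
    rw [h, hx0] at hx1
    exact zero_ne_one hx1
  have hm01 : ms x y i0 i1 = 0 := by
    unfold ms
    rw [hy0, hy1, sub_zero, zero_div]
  have hz : ∀ i, y i = 0 → i = i0 ∨ i = i1 := by
    intro i hi
    by_contra h
    rw [not_or] at h
    refine S.sep i0 i1 i hi01 h.1 (Ne.symm h.2) ?_
    rw [hm01]
    unfold ms
    rw [hi, hy0, sub_zero, zero_div]
  obtain ⟨i2, hi2⟩ : ∃ i, i ∉ ({i0, i1} : Finset ι) := by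
    by_contra hcon
    push Not at hcon
    have h1 : (Finset.univ : Finset ι).card ≤ ({i0, i1} : Finset ι).card :=
      Finset.card_le_card fun i _ => hcon i
    have h2 := Finset.card_le_two (a := i0) (b := i1)
    rw [Finset.card_univ] at h1
    omega
  rw [Finset.mem_insert, Finset.mem_singleton, not_or] at hi2
  have hy2 : y i2 ≠ 0 := fun h => (hz i2 h).elim hi2.1 hi2.2
  obtain ⟨b, c, hbc⟩ := hCON ι x y g (fun i => τ i * g i) i0 i1 hg hx0 hy0 hx1 hy1
    ⟨i2, hy2⟩ hz
  set h0 : ℂ := τ i0 * g i0 with hh0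
  have hτ0 : τ i0 ≠ 0 := by
    intro h
    exact S.tang i0 i1 (Ne.symm hi01) (hm01.trans h.symm)
  have hh : h0 ≠ 0 := mul_ne_zero hτ0 (hg0 i0)
  have hH : ∀ i, -(τ i * g i) = 2 * h0 * x i + b * y i - h0 := fun i => (hbc i).1
  have hG : ∀ i, g i = b * x i + c * y i + g i0 := fun i => (hbc i).2.1
  have hQ : ∀ i, 2 * h0 * x i ^ 2 + 2 * b * x i * y i + c * y i ^ 2 - 2 * h0 * x i
      + 2 * g i0 * y i = 0 := fun i => (hbc i).2.2
  have ha : 2 * h0 ≠ 0 := mul_ne_zero two_ne_zero hh
  obtain ⟨r, hr⟩ := IsAlgClosed.exists_pow_nat_eq (b ^ 2 - 2 * h0 * c) (n := 2) (by norm_num)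
  set k : ℂ := 2 * h0 * g i0 + b * h0 with hk
  by_cases hr0 : r = 0
  · -- the parabola
    exfalso
    have hc : b ^ 2 = 2 * h0 * c := by
      rw [hr0] at hr
      linear_combination -hr
    have hq : ∀ i, (2 * h0 * x i + b * y i + (-h0)) ^ 2 + 2 * k * y i + (-h0 ^ 2) = 0 := by
      intro i
      rw [hk]
      linear_combination 2 * h0 * hQ i + y i ^ 2 * hc
    have ht : ∀ i, (2 * h0 * x i + b * y i + (-h0)) * (2 * h0 + b * τ i) + k * τ i = 0 := by
      intro i
      rw [hk]
      linear_combination (-(2 * h0 + b * τ i)) * hH i - 2 * h0 * τ i * hG i + b * τ i * hH i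
        + τ i * y i * hc
    by_cases hk0 : k = 0
    · -- two parallel lines
      have hu : ∀ i, 2 * h0 * x i + b * y i + (-h0) = h0 ∨
          2 * h0 * x i + b * y i + (-h0) = -h0 := by
        intro i
        have h1 := hq i
        rw [hk0] at h1
        apply sq_eq_sq_iff_eq_or_eq_neg.mp
        linear_combination h1
      have hat : ∀ i, 2 * h0 + b * τ i = 0 := by
        intro i
        have h1 := ht i
        rw [hk0, zero_mul, add_zero] at h1
        refine (mul_eq_zero.mp h1).resolve_left ?_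
        rcases hu i with h2 | h2
        · rw [h2]
          exact hh
        · rw [h2]
          exact neg_ne_zero.mpr hh
      have hpp : ∀ i j, i ≠ j → 2 * h0 * x i + b * y i + (-h0) ≠
          2 * h0 * x j + b * y j + (-h0) := by
        intro i j hij h
        obtain ⟨hD, hm⟩ := slope S (Ne.symm hij)
        have h1 : 2 * h0 + b * ms x y i j = 0 := by
          have : (x j - x i) * (2 * h0 + b * ms x y i j) = 0 := by
            linear_combination (-1 : ℂ) * h + b * hm
          exact (mul_eq_zero.mp this).resolve_left hD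
        have h2 := hat i
        have h5 : b * (ms x y i j - τ i) = 0 := by linear_combination h1 - h2
        rcases mul_eq_zero.mp h5 with h6 | h6
        · rw [h6, zero_mul, add_zero] at h1
          exact ha h1
        · exact S.tang i j hij (sub_eq_zero.mp h6)
      have p01 := hpp i0 i1 (Ne.symm hi01)
      have p02 := hpp i0 i2 (Ne.symm hi2.1)
      have p12 := hpp i1 i2 (Ne.symm hi2.2)
      rcases hu i0 with q0 | q0 <;> rcases hu i1 with q1 | q1 <;> rcases hu i2 with q2 | q2
      · exact p01 (q0.trans q1.symm)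
      · exact p01 (q0.trans q1.symm)
      · exact p02 (q0.trans q2.symm)
      · exact p12 (q1.trans q2.symm)
      · exact p12 (q1.trans q2.symm)
      · exact p02 (q0.trans q2.symm)
      · exact p01 (q0.trans q1.symm)
      · exact p01 (q0.trans q1.symm)
    · exact hPAR ι x y τ E S hn (2 * h0) b (-h0) k (-h0 ^ 2) ha hk0 hq ht
  · -- the hyperbola
    have hdet : 2 * h0 * (b + r) - 2 * h0 * (b - r) ≠ 0 := by
      have : 2 * h0 * (b + r) - 2 * h0 * (b - r) = 2 * (2 * h0) * r := by ring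
      rw [this]
      exact mul_ne_zero (mul_ne_zero two_ne_zero ha) hr0
    set s : ℂ := k / r with hs
    have hsr : s * r = k := div_mul_cancel₀ _ hr0
    have hq : ∀ i, (2 * h0 * x i + (b - r) * y i + (-h0 + s)) *
        (2 * h0 * x i + (b + r) * y i + (-h0 - s)) = h0 ^ 2 - s ^ 2 := by
      intro i
      have h1 : s * r = 2 * h0 * g i0 + b * h0 := hsr
      linear_combination 2 * h0 * hQ i - y i ^ 2 * hr + 2 * y i * h1
    have ht : ∀ i, (2 * h0 * x i + (b - r) * y i + (-h0 + s)) * (2 * h0 + (b + r) * τ i) +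
        (2 * h0 * x i + (b + r) * y i + (-h0 - s)) * (2 * h0 + (b - r) * τ i) = 0 := by
      intro i
      have h1 : s * r = 2 * h0 * g i0 + b * h0 := hsr
      linear_combination (-2 * (2 * h0 + b * τ i)) * hH i - 4 * h0 * τ i * hG i
        + 2 * b * τ i * hH i + 2 * τ i * h1 - 2 * τ i * y i * hr
    have ht' : ∀ i, (2 * h0 * x i + (b + r) * y i + (-h0 - s)) * (2 * h0 + (b - r) * τ i) +
        (2 * h0 * x i + (b - r) * y i + (-h0 + s)) * (2 * h0 + (b + r) * τ i) = 0 := by
      intro i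
      rw [add_comm]
      exact ht i
    have hdet' : 2 * h0 * (b - r) - 2 * h0 * (b + r) ≠ 0 := by
      intro h
      apply hdet
      linear_combination -h
    have hN : h0 ^ 2 - s ^ 2 ≠ 0 := by
      intro hN
      have hz : ∀ i, 2 * h0 * x i + (b - r) * y i + (-h0 + s) = 0 ∨
          2 * h0 * x i + (b + r) * y i + (-h0 - s) = 0 := fun i =>
        mul_eq_zero.mp ((hq i).trans hN)
      have pu : ∀ i j, i ≠ j → 2 * h0 * x i + (b - r) * y i + (-h0 + s) = 0 →
          2 * h0 * x j + (b - r) * y j + (-h0 + s) = 0 → False := fun i j hij h1 h2 =>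
        pair S ha hdet ht hij h1 h2
      have pv : ∀ i j, i ≠ j → 2 * h0 * x i + (b + r) * y i + (-h0 - s) = 0 →
          2 * h0 * x j + (b + r) * y j + (-h0 - s) = 0 → False := fun i j hij h1 h2 =>
        pair S ha hdet' ht' hij h1 h2
      rcases hz i0 with q0 | q0 <;> rcases hz i1 with q1 | q1 <;> rcases hz i2 with q2 | q2
      · exact pu _ _ hi01 q1 q0
      · exact pu _ _ hi01 q1 q0
      · exact pu _ _ hi2.1 q2 q0
      · exact pv _ _ hi2.2 q2 q1
      · exact pu _ _ hi2.2 q2 q1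
      · exact pv _ _ hi2.1 q2 q0
      · exact pv _ _ hi01 q1 q0
      · exact pv _ _ hi01 q1 q0
    exact hHYP ι x y τ E S hn _ _ _ _ _ _ _ hdet hN hq ht

end Pool.Agent.Lib.MP_70c3c6_co.EQ
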