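import Pool.Agent.Lib.MP_70c3c6_co.EQ.Spec

/-!
# BCK: the standard arrangements have few double points
-/

set_option autoImplicit false
open Classical

namespace Pool.Agent.Lib.MP_70c3c6_co.EQ

namespace BCKM

lemma dep2 {a b : V3} (h : LinearIndependent ℂ ![a, b]) {α β : ℂ} (h0 : α • a + β • b = 0) :
    α = 0 ∧ β = 0 := LinearIndependent.pair_iff.mp h α β h0

lemma dep3 {a b c : V3} (h : LinearIndependent ℂ ![a, b, c]) {α β γ : ℂ}
    (h0 : α • a + β • b + γ • c = 0) : α = 0 ∧ β = 0 ∧ γ = 0 := by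
  have h1 := Fintype.linearIndependent_iff.mp h ![α, β, γ] (by
    rw [Fin.sum_univ_three]
    exact h0)
  exact ⟨h1 0, h1 1, h1 2⟩

/-- the relation between two elements of type `z` and one of type `w` -/
lemma rel1 {za zb zc ca cb cc : ℂ} (hca : ca ≠ 0) (hcb : cb ≠ 0) (hcc : cc ≠ 0) (hza : za ≠ 0)
    (hzb : zb ≠ 0) (h : zc * (za * zb) = 1) (M : V3 ≃ₗ[ℂ] V3) {a b c : V3}
    (ha : M a = ca • ![za, za⁻¹, 1]) (hb : M b = cb • ![zb, zb⁻¹, 1])
    (hc : M c = cc • ![1, -zc, 0]) :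
    ca⁻¹ • a + (-cb⁻¹) • b + (-((za - zb) * cc⁻¹)) • c = 0 := by
  apply M.injective
  rw [map_zero, map_add, map_add, map_smul, map_smul, map_smul, ha, hb, hc]
  have hzc : zc = za⁻¹ * zb⁻¹ := by
    field_simp
    linear_combination h
  funext i
  fin_cases i
  · simp
    field_simp
    ring
  · simp
    rw [hzc]
    field_simp
    ring
  · simp
    field_simp
    ring

/-- the relation between three elements of type `w` -/
lemma rel2 {za zb zc ca cb cc : ℂ} (hca : ca ≠ 0) (hcb : cb ≠ 0) (hcc : cc ≠ 0)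
    (M : V3 ≃ₗ[ℂ] V3) {a b c : V3} (ha : M a = ca • ![1, -za, 0]) (hb : M b = cb • ![1, -zb, 0])
    (hc : M c = cc • ![1, -zc, 0]) :
    ((zb - zc) * ca⁻¹) • a + ((zc - za) * cb⁻¹) • b + ((za - zb) * cc⁻¹) • c = 0 := by
  apply M.injective
  rw [map_zero, map_add, map_add, map_smul, map_smul, map_smul, ha, hb, hc]
  funext i
  fin_cases i
  · simp
    field_simp
    ring
  · simp
    field_simp
    ring
  · simp

end BCKM

open BCKM in
/-- BCK -/
theorem specBCK : SpecBCK := by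
  intro A hA hstd
  obtain ⟨n, hn, hcard, M, hM⟩ := hstd
  choose! z hz c hc hM using hM
  have hn0 : 0 < n := by omega
  have hz0 : ∀ a ∈ A, z a ≠ 0 := by
    intro a ha h0
    have := hz a ha
    rw [h0, zero_pow hn0.ne'] at this
    exact zero_ne_one this
  set L := A.filter fun a => M a = c a • ![z a, (z a)⁻¹, 1] with hL
  set W := A.filter fun a => M a = c a • ![1, -z a, 0] with hW
  have mL : ∀ a, a ∈ L ↔ a ∈ A ∧ M a = c a • ![z a, (z a)⁻¹, 1] := fun a => Finset.mem_filter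
  have mW : ∀ a, a ∈ W ↔ a ∈ A ∧ M a = c a • ![1, -z a, 0] := fun a => Finset.mem_filter
  have hLW : ∀ a ∈ L, a ∉ W := by
    intro a ha hw
    have h1 := ((mL a).mp ha).2
    have h2 := ((mW a).mp hw).2
    rw [h1] at h2
    have h3 := congrFun h2 2
    simp at h3
    exact hc a ((mL a).mp ha).1 h3
  have hor : ∀ a ∈ A, a ∈ L ∨ a ∈ W := by
    intro a ha
    rcases hM a ha with h | h
    · exact Or.inl ((mL a).mpr ⟨ha, h⟩)
    · exact Or.inr ((mW a).mpr ⟨ha, h⟩)
  have hunion : L ∪ W = A := by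
    ext a
    rw [Finset.mem_union]
    exact ⟨fun h => h.elim (fun h => ((mL a).mp h).1) fun h => ((mW a).mp h).1, hor a⟩
  have hdisj : Disjoint L W := Finset.disjoint_left.mpr hLW
  have hsum : L.card + W.card = 2 * n := by
    rw [← Finset.card_union_of_disjoint hdisj, hunion, hcard]
  -- injectivity
  have injL : Set.InjOn z (L : Set V3) := by
    intro a ha b hb hab
    by_contra hne
    obtain ⟨ha1, ha2⟩ := (mL a).mp ha
    obtain ⟨hb1, hb2⟩ := (mL b).mp hb
    have h0 : c b • a + (-c a) • b = 0 := by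
      apply M.injective
      rw [map_zero, map_add, map_smul, map_smul, ha2, hb2, hab]
      funext i
      simp only [Pi.add_apply, Pi.smul_apply, smul_eq_mul, Pi.zero_apply]
      ring
    exact hc b hb1 (dep2 (hA.li a ha1 b hb1 hne) h0).1
  have injW : Set.InjOn z (W : Set V3) := by
    intro a ha b hb hab
    by_contra hne
    obtain ⟨ha1, ha2⟩ := (mW a).mp ha
    obtain ⟨hb1, hb2⟩ := (mW b).mp hb
    have h0 : c b • a + (-c a) • b = 0 := by
      apply M.injective
      rw [map_zero, map_add, map_smul, map_smul, ha2, hb2, hab]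
      funext i
      simp only [Pi.add_apply, Pi.smul_apply, smul_eq_mul, Pi.zero_apply]
      ring
    exact hc b hb1 (dep2 (hA.li a ha1 b hb1 hne) h0).1
  -- the roots of unity
  set R : Finset ℂ := Polynomial.nthRootsFinset n (1 : ℂ) with hR
  have mR : ∀ x, x ∈ R ↔ x ^ n = 1 := fun x => Polynomial.mem_nthRootsFinset hn0 1
  have hRc : R.card ≤ n := by
    rw [hR, Polynomial.nthRootsFinset]
    exact (Multiset.toFinset_card_le _).trans (Polynomial.card_nthRoots n 1)
  have sL : L.image z ⊆ R := by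
    intro x hx
    obtain ⟨a, ha, rfl⟩ := Finset.mem_image.mp hx
    exact (mR _).mpr (hz a ((mL a).mp ha).1)
  have sW : W.image z ⊆ R := by
    intro x hx
    obtain ⟨a, ha, rfl⟩ := Finset.mem_image.mp hx
    exact (mR _).mpr (hz a ((mW a).mp ha).1)
  have cL : (L.image z).card = L.card := Finset.card_image_of_injOn injL
  have cW : (W.image z).card = W.card := Finset.card_image_of_injOn injW
  have dL := Finset.card_le_card sL
  have dW := Finset.card_le_card sW
  have eL : L.image z = R := Finset.eq_of_subset_of_card_le sL (by omega)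
  have eW : W.image z = R := Finset.eq_of_subset_of_card_le sW (by omega)
  have surL : ∀ x : ℂ, x ^ n = 1 → ∃ a ∈ L, z a = x := by
    intro x hx
    have : x ∈ L.image z := by rw [eL]; exact (mR x).mpr hx
    exact Finset.mem_image.mp this
  have surW : ∀ x : ℂ, x ^ n = 1 → ∃ a ∈ W, z a = x := by
    intro x hx
    have : x ∈ W.image z := by rw [eW]; exact (mR x).mpr hx
    exact Finset.mem_image.mp this
  -- two elements of `L`
  have hLL : ∀ a ∈ L, ∀ b ∈ L, a ≠ b →
      ¬ ∀ d ∈ A, d ≠ a → d ≠ b → LinearIndependent ℂ ![a, b, d] := by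
    intro a ha b hb hab hall
    obtain ⟨ha1, ha2⟩ := (mL a).mp ha
    obtain ⟨hb1, hb2⟩ := (mL b).mp hb
    obtain ⟨d, hd, hdz⟩ := surW (z a * z b)⁻¹ (by
      rw [inv_pow, mul_pow, hz a ha1, hz b hb1]; simp)
    obtain ⟨hd1, hd2⟩ := (mW d).mp hd
    have hza := hz0 a ha1
    have hzb := hz0 b hb1
    have h1 := rel1 (hc a ha1) (hc b hb1) (hc d hd1) hza hzb
      (by rw [hdz]; field_simp) M ha2 hb2 hd2
    have h2 := dep3 (hall d hd1 (fun h => hLW a ha (h ▸ hd)) (fun h => hLW b hb (h ▸ hd))) h1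
    exact inv_ne_zero (hc a ha1) h2.1
  -- two elements of `W`
  have hWW : ∀ a ∈ W, ∀ b ∈ W, a ≠ b →
      ¬ ∀ d ∈ A, d ≠ a → d ≠ b → LinearIndependent ℂ ![a, b, d] := by
    intro a ha b hb hab hall
    obtain ⟨ha1, ha2⟩ := (mW a).mp ha
    obtain ⟨hb1, hb2⟩ := (mW b).mp hb
    obtain ⟨d, hd⟩ : ((W.erase a).erase b).Nonempty := by
      rw [← Finset.card_pos]
      have e1 := Finset.card_erase_add_one ha
      have e2 := Finset.card_erase_add_one (Finset.mem_erase.mpr ⟨hab.symm, hb⟩)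
      omega
    have hdb : d ≠ b := Finset.ne_of_mem_erase hd
    have hda : d ≠ a := Finset.ne_of_mem_erase (Finset.mem_of_mem_erase hd)
    have hdW : d ∈ W := Finset.mem_of_mem_erase (Finset.mem_of_mem_erase hd)
    obtain ⟨hd1, hd2⟩ := (mW d).mp hdW
    have h1 := rel2 (hc a ha1) (hc b hb1) (hc d hd1) M ha2 hb2 hd2
    have h2 := (dep3 (hall d hd1 hda hdb) h1).1
    rcases mul_eq_zero.mp h2 with h3 | h3
    · exact hdb (injW hb hdW (sub_eq_zero.mp h3)).symm
    · exact inv_ne_zero (hc a ha1) h3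
  -- one of each
  have hmix : ∀ a ∈ L, ∀ b ∈ W,
      ((∀ d ∈ A, d ≠ a → d ≠ b → LinearIndependent ℂ ![a, b, d]) ∨
        ∀ d ∈ A, d ≠ b → d ≠ a → LinearIndependent ℂ ![b, a, d]) → z b = (z a * z a)⁻¹ := by
    intro a ha b hb hall
    obtain ⟨ha1, ha2⟩ := (mL a).mp ha
    obtain ⟨hb1, hb2⟩ := (mW b).mp hb
    obtain ⟨d, hd, hdz⟩ := surL (z a * z b)⁻¹ (by
      rw [inv_pow, mul_pow, hz a ha1, hz b hb1]; simp)
    obtain ⟨hd1, hd2⟩ := (mL d).mp hd
    have hza := hz0 a ha1
    have hzb := hz0 b hb1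
    have hzd := hz0 d hd1
    by_cases hda : d = a
    · rw [hda] at hdz
      have h1 : z a * (z a * z b) = 1 := by
        nth_rewrite 1 [hdz]
        field_simp
      field_simp
      linear_combination h1
    · exfalso
      have hdb : d ≠ b := fun h => hLW d hd (h ▸ hb)
      have h1 := rel1 (hc a ha1) (hc d hd1) (hc b hb1) hza hzd
        (by rw [hdz]; field_simp) M ha2 hd2 hb2
      rcases hall with hall | hall
      · have h2 : (c a)⁻¹ • a + (-((z a - z d) * (c b)⁻¹)) • b + (-(c d)⁻¹) • d = 0 := by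
          rw [← h1]
          abel
        exact inv_ne_zero (hc a ha1) (dep3 (hall d hd1 hda hdb) h2).1
      · have h2 : (-((z a - z d) * (c b)⁻¹)) • b + (c a)⁻¹ • a + (-(c d)⁻¹) • d = 0 := by
          rw [← h1]
          abel
        exact inv_ne_zero (hc a ha1) (dep3 (hall d hd1 hdb hda) h2).2.1
  -- counting
  have mF : ∀ x : V3 × V3, x ∈ Fn A ↔ (x.1 ∈ A ∧ x.2 ∈ A) ∧ x.1 ≠ x.2 ∧
      ∀ d ∈ A, d ≠ x.1 → d ≠ x.2 → LinearIndependent ℂ ![x.1, x.2, d] := by
    intro x
    unfold Fn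
    rw [Finset.mem_filter, Finset.mem_product]
  set F1 := (Fn A).filter fun x => x.1 ∈ L with hF1
  set F2 := (Fn A).filter fun x => x.2 ∈ L with hF2
  have hcov : Fn A ⊆ F1 ∪ F2 := by
    intro x hx
    obtain ⟨⟨h1, h2⟩, h3, h4⟩ := (mF x).mp hx
    rcases hor _ h1 with h5 | h5
    · exact Finset.mem_union_left _ (Finset.mem_filter.mpr ⟨hx, h5⟩)
    · rcases hor _ h2 with h6 | h6
      · exact Finset.mem_union_right _ (Finset.mem_filter.mpr ⟨hx, h6⟩)
      · exact absurd h4 (hWW _ h5 _ h6 h3)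
  have c1 : F1.card ≤ L.card := by
    refine Finset.card_le_card_of_injOn (fun x => x.1) ?_ ?_
    · intro x hx
      exact (Finset.mem_filter.mp hx).2
    · rintro ⟨a, b⟩ hx ⟨a', b'⟩ hy hab
      obtain ⟨hx1, hx2⟩ := Finset.mem_filter.mp hx
      obtain ⟨hy1, hy2⟩ := Finset.mem_filter.mp hy
      simp only at hab hx2 hy2
      subst hab
      obtain ⟨⟨h1, h2⟩, h3, h4⟩ := (mF _).mp hx1
      obtain ⟨⟨k1, k2⟩, k3, k4⟩ := (mF _).mp hy1
      simp only at h1 h2 h3 h4 k1 k2 k3 k4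
      have hb : b ∈ W := (hor b h2).resolve_left fun h => hLL a hx2 b h h3 h4
      have hb' : b' ∈ W := (hor b' k2).resolve_left fun h => hLL a hx2 b' h k3 k4
      have e1 := hmix a hx2 b hb (Or.inl h4)
      have e2 := hmix a hx2 b' hb' (Or.inl k4)
      rw [injW hb hb' (e1.trans e2.symm)]
  have c2 : F2.card ≤ L.card := by
    refine Finset.card_le_card_of_injOn (fun x => x.2) ?_ ?_
    · intro x hx
      exact (Finset.mem_filter.mp hx).2
    · rintro ⟨b, a⟩ hx ⟨b', a'⟩ hy hab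
      obtain ⟨hx1, hx2⟩ := Finset.mem_filter.mp hx
      obtain ⟨hy1, hy2⟩ := Finset.mem_filter.mp hy
      simp only at hab hx2 hy2
      subst hab
      obtain ⟨⟨h1, h2⟩, h3, h4⟩ := (mF _).mp hx1
      obtain ⟨⟨k1, k2⟩, k3, k4⟩ := (mF _).mp hy1
      simp only at h1 h2 h3 h4 k1 k2 k3 k4
      have hb : b ∈ W := (hor b h1).resolve_left fun h => hLL b h a hx2 h3 h4
      have hb' : b' ∈ W := (hor b' k1).resolve_left fun h => hLL b' h a hx2 k3 k4
      have e1 := hmix a hx2 b hb (Or.inr h4)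
      have e2 := hmix a hx2 b' hb' (Or.inr k4)
      rw [injW hb hb' (e1.trans e2.symm)]
  have c3 := Finset.card_le_card hcov
  have c4 := Finset.card_union_le F1 F2
  omega

end Pool.Agent.Lib.MP_70c3c6_co.EQ
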