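import Pool.Agent.Lib.MP_70c3c6_co.EQ.Spec

/-!
MP_70c3c6_co, equality case, CON: the points lie on a conic with the given tangents.
-/

set_option autoImplicit false
open Classical

namespace Pool.Agent.Lib.MP_70c3c6_co.EQ

theorem specCON : SpecCON := by
  intro ι x y g h i0 i1 S hx0 hy0 hx1 hy1 ⟨i2, hi2⟩ hz
  -- the value at i1
  have h1 : h i1 = - h i0 := by
    have := S i0 i1
    rw [hx0, hy0, hx1, hy1] at this
    linear_combination -this
  set b := g i1 - g i0 with hb
  have hH : ∀ i, - h i = 2 * h i0 * x i + b * y i - h i0 := by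
    intro i
    have e0 := S i0 i
    have e1 := S i1 i
    rw [hx0, hy0] at e0
    rw [hx1, hy1, h1] at e1
    rw [hb]
    linear_combination e0 - e1
  -- the quadratic relation
  set q : ι → ℂ := fun i => (g i - b * x i - g i0) / y i with hq
  have hg : ∀ i, y i ≠ 0 → g i = b * x i + q i * y i + g i0 := by
    intro i hi
    rw [hq]
    show g i = b * x i + (g i - b * x i - g i0) / y i * y i + g i0
    rw [div_mul_cancel₀ _ hi]
    ring
  have hQ : ∀ i, y i ≠ 0 → 2 * h i0 * x i ^ 2 + 2 * b * x i * y i + q i * y i ^ 2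
      - 2 * h i0 * x i + 2 * g i0 * y i = 0 := by
    intro i hi
    have e0 := S i0 i
    rw [hx0, hy0] at e0
    have e1 := hH i
    have e2 := hg i hi
    linear_combination e0 + (- x i) * e1 + (- y i) * e2
  have hqq : ∀ i, y i ≠ 0 → q i = q i2 := by
    intro i hi
    have e1 := S i i2
    have e2 := hH i
    have e3 := hH i2
    have e4 := hg i hi
    have e5 := hg i2 hi2
    have e6 := hQ i hi
    have e7 := hQ i2 hi2
    have e8 : y i * y i2 * (q i - q i2) = 0 := by
      linear_combination e1 + e6 - e7 - (x i2 - x i) * (e2 + e3)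
        - (y i2 - y i) * (e4 + e5)
    rcases mul_eq_zero.mp e8 with e9 | e9
    · exact absurd e9 (mul_ne_zero hi hi2)
    · exact sub_eq_zero.mp e9
  refine ⟨b, q i2, fun i => ⟨hH i, ?_⟩⟩
  by_cases hi : y i = 0
  · rcases hz i hi with rfl | rfl
    · rw [hx0, hy0]
      constructor <;> ring
    · rw [hx1, hy1]
      constructor
      · rw [hb]
        ring
      · ring
  · have e1 := hg i hi
    have e2 := hQ i hi
    rw [hqq i hi] at e1 e2
    exact ⟨e1, e2⟩

end Pool.Agent.Lib.MP_70c3c6_co.EQ
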