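import Pool.Agent.Lib.MP_70c3c6_co.EQ.Spec

/-!
# EQ, module CNT: the combinatorial content of equality
-/

set_option autoImplicit false
open Classical

namespace Pool.Agent.Lib.MP_70c3c6_co.EQ

namespace CNTM

open MPss

variable {A : Finset EQ.V3} {p : EQ.V3}

lemma mem_Ap {c : EQ.V3} : c ∈ Ap A p ↔ c ∈ A ∧ dotProduct c p = 0 := by
  unfold Ap; exact Finset.mem_filter

lemma mem_Aq {c : EQ.V3} : c ∈ Aq A p ↔ c ∈ A ∧ dotProduct c p ≠ 0 := by
  unfold Aq; exact Finset.mem_filter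

/-- the double points on `a` -/
noncomputable def good (A : Finset EQ.V3) (p a : EQ.V3) : Finset EQ.V3 := (Ap A p).filter fun c =>
  ∀ b ∈ A, dotProduct b p ≠ 0 → b ≠ a → LinearIndependent ℂ ![a, c, b]

lemma mem_good {a c : EQ.V3} : c ∈ good A p a ↔ (c ∈ A ∧ dotProduct c p = 0) ∧
    ∀ b ∈ A, dotProduct b p ≠ 0 → b ≠ a → LinearIndependent ℂ ![a, c, b] := by
  unfold good
  rw [Finset.mem_filter, mem_Ap]

lemma mem_Fn {x : EQ.V3 × EQ.V3} : x ∈ Fn A ↔ (x.1 ∈ A ∧ x.2 ∈ A) ∧ x.1 ≠ x.2 ∧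
    ∀ c ∈ A, c ≠ x.1 → c ≠ x.2 → LinearIndependent ℂ ![x.1, x.2, c] := by
  unfold Fn
  rw [Finset.mem_filter, Finset.mem_product]

lemma ne_of {a c : EQ.V3} (h1 : dotProduct a p ≠ 0) (h2 : dotProduct c p = 0) : a ≠ c := by
  rintro rfl
  exact h1 h2

lemma good_li (hA : Arr A) {a c : EQ.V3} (ha : a ∈ Aq A p) (hc : c ∈ good A p a) :
    ∀ b ∈ A, b ≠ a → b ≠ c → LinearIndependent ℂ ![a, c, b] := by
  intro b hb hba hbc
  obtain ⟨haA, hap⟩ := mem_Aq.1 ha
  obtain ⟨⟨hcA, hcp⟩, hc2⟩ := mem_good.1 hc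
  by_cases hbp : dotProduct b p = 0
  · exact li_of_through hA.li hap hcA hcp hb hbp (Ne.symm hbc)
  · exact hc2 b hb hbp hba

lemma two_sum_le (hA : Arr A) (T : Finset (EQ.V3 × EQ.V3)) (hT : T ⊆ Fn A)
    (hT' : ∀ x ∈ T, dotProduct x.1 p = 0 ∧ dotProduct x.2 p = 0) :
    2 * ∑ a ∈ Aq A p, (good A p a).card + T.card ≤ (Fn A).card := by
  set Gd : Finset (Σ _ : EQ.V3, EQ.V3) := (Aq A p).sigma (good A p) with hGd
  have e1 : (Gd.image fun x => (x.1, x.2)).card = Gd.card := by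
    refine Finset.card_image_of_injective _ ?_
    rintro ⟨a, b⟩ ⟨c, d⟩ h
    simp only [Prod.mk.injEq] at h
    obtain ⟨rfl, rfl⟩ := h
    rfl
  have e2 : (Gd.image fun x => (x.2, x.1)).card = Gd.card := by
    refine Finset.card_image_of_injective _ ?_
    rintro ⟨a, b⟩ ⟨c, d⟩ h
    simp only [Prod.mk.injEq] at h
    obtain ⟨rfl, rfl⟩ := h
    rfl
  have hdis : Disjoint (Gd.image fun x => (x.1, x.2)) (Gd.image fun x => (x.2, x.1)) := by
    rw [Finset.disjoint_left]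
    intro x hx hy
    obtain ⟨⟨a, c⟩, h1, rfl⟩ := Finset.mem_image.mp hx
    obtain ⟨⟨a', c'⟩, h2, h3⟩ := Finset.mem_image.mp hy
    simp only [Prod.mk.injEq] at h3
    have ha := (mem_Aq.1 (Finset.mem_sigma.mp h1).1).2
    have hc' := (mem_good.1 (Finset.mem_sigma.mp h2).2).1.2
    exact ne_of ha hc' h3.1.symm
  have hdis2 : Disjoint ((Gd.image fun x => (x.1, x.2)) ∪ (Gd.image fun x => (x.2, x.1))) T := by
    rw [Finset.disjoint_left]
    intro x hx hy
    rcases Finset.mem_union.mp hx with hx | hx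
    · obtain ⟨⟨a, c⟩, h1, rfl⟩ := Finset.mem_image.mp hx
      exact (mem_Aq.1 (Finset.mem_sigma.mp h1).1).2 (hT' _ hy).1
    · obtain ⟨⟨a, c⟩, h1, rfl⟩ := Finset.mem_image.mp hx
      exact (mem_Aq.1 (Finset.mem_sigma.mp h1).1).2 (hT' _ hy).2
  have hsub : (Gd.image fun x => (x.1, x.2)) ∪ (Gd.image fun x => (x.2, x.1)) ∪ T ⊆ Fn A := by
    intro x hx
    rcases Finset.mem_union.mp hx with hx | hx
    · rcases Finset.mem_union.mp hx with hx | hx
      · obtain ⟨⟨a, c⟩, h1, rfl⟩ := Finset.mem_image.mp hx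
        obtain ⟨ha, hc⟩ := Finset.mem_sigma.mp h1
        obtain ⟨haA, hap⟩ := mem_Aq.1 ha
        obtain ⟨hcA, hcp⟩ := (mem_good.1 hc).1
        exact mem_Fn.2 ⟨⟨haA, hcA⟩, ne_of hap hcp, fun b hb h1 h2 => good_li hA ha hc b hb h1 h2⟩
      · obtain ⟨⟨a, c⟩, h1, rfl⟩ := Finset.mem_image.mp hx
        obtain ⟨ha, hc⟩ := Finset.mem_sigma.mp h1
        obtain ⟨haA, hap⟩ := mem_Aq.1 ha
        obtain ⟨hcA, hcp⟩ := (mem_good.1 hc).1
        exact mem_Fn.2 ⟨⟨hcA, haA⟩, Ne.symm (ne_of hap hcp),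
          fun b hb h1 h2 => li3_swap (good_li hA ha hc b hb h2 h1)⟩
    · exact hT hx
  have h3 := Finset.card_le_card hsub
  rw [Finset.card_union_of_disjoint hdis2, Finset.card_union_of_disjoint hdis, e1, e2] at h3
  have hsum : Gd.card = ∑ a ∈ Aq A p, (good A p a).card := Finset.card_sigma _ _
  omega

lemma Aq_pos (hA : Arr A) (hM : Mod A p) : 0 < (Aq A p).card := by
  rw [Finset.card_pos]
  by_contra hemp
  rw [Finset.not_nonempty_iff_eq_empty] at hemp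
  obtain ⟨a, ha, b, hb, c, hc, hli⟩ := hA.np
  have hz : ∀ x ∈ A, dotProduct x p = 0 := by
    intro x hx
    by_contra h
    have : x ∈ Aq A p := mem_Aq.2 ⟨hx, h⟩
    rw [hemp] at this
    exact absurd this (Finset.notMem_empty x)
  let Bs := basisOfLinearIndependentOfCardEqFinrank hli (by simp)
  have hBs : ∀ i, Bs i = ![a, b, c] i := fun i => by
    simp only [Bs, coe_basisOfLinearIndependentOfCardEqFinrank]
  have hall : ∀ w : EQ.V3, dotProduct w p = 0 := by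
    intro w
    have h1 := Bs.sum_repr w
    rw [Fin.sum_univ_three, hBs 0, hBs 1, hBs 2] at h1
    rw [← h1]
    show dotProduct (Bs.repr w 0 • a + Bs.repr w 1 • b + Bs.repr w 2 • c) p = 0
    rw [add_dotProduct, add_dotProduct, smul_dotProduct, smul_dotProduct, smul_dotProduct,
      hz a ha, hz b hb, hz c hc]
    simp
  apply hM.nz
  ext i
  have := hall (Pi.single i 1)
  simpa using this

/-- the line through `p` and the crossing of `a` and `b` is unique -/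
lemma uniq (hA : Arr A) {a b c c' : EQ.V3} (ha : a ∈ Aq A p) (hb : b ∈ Aq A p) (hba : b ≠ a)
    (hc : c ∈ Ap A p) (hc' : c' ∈ Ap A p) (h : ¬ LinearIndependent ℂ ![a, c, b])
    (h' : ¬ LinearIndependent ℂ ![a, c', b]) : c = c' := by
  obtain ⟨haA, hap⟩ := mem_Aq.1 ha
  obtain ⟨hbA, hbp⟩ := mem_Aq.1 hb
  obtain ⟨hcA, hcp⟩ := mem_Ap.1 hc
  obtain ⟨hcA', hcp'⟩ := mem_Ap.1 hc'
  by_contra hne
  obtain ⟨r, hr⟩ := vv_prop hap hbp hcp (hA.nz c hcA) (hA.li a haA b hbA (Ne.symm hba))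
    fun h1 => h (li3_swap' h1)
  obtain ⟨q, hq⟩ := vv_prop hap hbp hcp' (hA.nz c' hcA') (hA.li a haA b hbA (Ne.symm hba))
    fun h1 => h' (li3_swap' h1)
  have h3 := (li2_iff c c').mp (hA.li c hcA c' hcA' hne) r (-q) (by
    rw [neg_smul, ← hr, ← hq, add_neg_cancel])
  refine vv_ne hbp (hA.li a haA b hbA (Ne.symm hba)) ?_
  rw [hr, h3.1, zero_smul]

lemma sep (hA : Arr A) (hM : Mod A p) (hcard : (Ap A p).card = (Aq A p).card) {a : EQ.V3}
    (ha : a ∈ Aq A p) (hg : (good A p a).card ≤ 1) :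
    ∀ c ∈ Ap A p, ∀ b ∈ Aq A p, ∀ b' ∈ Aq A p, b ≠ a → b' ≠ a →
    ¬ LinearIndependent ℂ ![a, c, b] → ¬ LinearIndependent ℂ ![a, c, b'] → b = b' := by
  obtain ⟨haA, hap⟩ := mem_Aq.1 ha
  have hch : ∀ b ∈ (Aq A p).erase a, ∃ c ∈ Ap A p \ good A p a,
      ¬ LinearIndependent ℂ ![a, c, b] := by
    intro b hb
    obtain ⟨hba, hbq⟩ := Finset.mem_erase.1 hb
    obtain ⟨hbA, hbp⟩ := mem_Aq.1 hbq
    obtain ⟨c, hc, hcp, h3⟩ := hM.m a haA b hbA (Ne.symm hba) fun h => hap h.1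
    have h4 : ¬ LinearIndependent ℂ ![a, c, b] := fun h => h3 (li3_swap' h)
    exact ⟨c, Finset.mem_sdiff.2 ⟨mem_Ap.2 ⟨hc, hcp⟩,
      fun h5 => h4 ((mem_good.1 h5).2 b hbA hbp hba)⟩, h4⟩
  choose! h hh1 hh2 using hch
  have hinj : Set.InjOn h ((Aq A p).erase a : Finset EQ.V3) := by
    refine Finset.injOn_of_surjOn_of_card_le h (t := Ap A p \ good A p a) hh1 ?_ ?_
    · intro c hc
      obtain ⟨hc1, hc2⟩ := Finset.mem_sdiff.1 (Finset.mem_coe.1 hc)
      have h5 : ∃ b ∈ A, dotProduct b p ≠ 0 ∧ b ≠ a ∧ ¬ LinearIndependent ℂ ![a, c, b] := by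
        by_contra h6
        push Not at h6
        exact hc2 (mem_good.2 ⟨mem_Ap.1 hc1, h6⟩)
      obtain ⟨b, hbA, hbp, hba, h6⟩ := h5
      have hb : b ∈ (Aq A p).erase a := Finset.mem_erase.2 ⟨hba, mem_Aq.2 ⟨hbA, hbp⟩⟩
      refine ⟨b, Finset.mem_coe.2 hb, ?_⟩
      exact uniq hA ha (mem_Aq.2 ⟨hbA, hbp⟩) hba (Finset.mem_sdiff.1 (hh1 b hb)).1 hc1 (hh2 b hb) h6
    · rw [Finset.card_erase_of_mem ha]
      have h5 := Finset.le_card_sdiff (good A p a) (Ap A p)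
      omega
  intro c hc b hb b' hb' hba hba' h1 h2
  have hbe : b ∈ (Aq A p).erase a := Finset.mem_erase.2 ⟨hba, hb⟩
  have hbe' : b' ∈ (Aq A p).erase a := Finset.mem_erase.2 ⟨hba', hb'⟩
  apply hinj (Finset.mem_coe.2 hbe) (Finset.mem_coe.2 hbe')
  rw [uniq hA ha hb hba (Finset.mem_sdiff.1 (hh1 b hbe)).1 hc (hh2 b hbe) h1,
    uniq hA ha hb' hba' (Finset.mem_sdiff.1 (hh1 b' hbe')).1 hc (hh2 b' hbe') h2]

end CNTM

open CNTM MPss in
theorem specCNT : SpecCNT := by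
  intro A p hA hM hF
  obtain ⟨c1, hc1, c2, hc2, hc12, hp1, hp2⟩ := hM.two
  have hA'ne := Aq_pos hA hM
  have hex : ∀ a ∈ Aq A p, ∃ c, c ∈ good A p a := by
    intro a ha
    obtain ⟨haA, hap⟩ := mem_Aq.1 ha
    obtain ⟨c, hc, hcp, h⟩ := exists_double hA.nz hA.li hc1 hc2 hc12 hp1 hp2 hM.m haA hap
    exact ⟨c, mem_good.2 ⟨⟨hc, hcp⟩, h⟩⟩
  have hg1 : ∀ a ∈ Aq A p, 1 ≤ (good A p a).card := fun a ha => Finset.card_pos.2 (hex a ha)
  have hg2 : ∀ a ∈ Aq A p, (Ap A p).card + 1 ≤ (good A p a).card + (Aq A p).card := by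
    intro a ha
    obtain ⟨haA, hap⟩ := mem_Aq.1 ha
    exact count_line hA.nz hA.li haA hap
  have htot : A.card = (Ap A p).card + (Aq A p).card :=
    (Finset.card_filter_add_card_filter_not (s := A) (fun c => dotProduct c p = 0)).symm
  have hm2 : 2 ≤ (Ap A p).card := by
    have h1 : ({c1, c2} : Finset EQ.V3) ⊆ Ap A p := by
      intro x hx
      rcases Finset.mem_insert.1 hx with rfl | hx
      · exact mem_Ap.2 ⟨hc1, hp1⟩
      · rw [Finset.mem_singleton.1 hx]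
        exact mem_Ap.2 ⟨hc2, hp2⟩
    have h2 := Finset.card_le_card h1
    rwa [Finset.card_pair hc12] at h2
  have hs0 := two_sum_le (p := p) hA ∅ (Finset.empty_subset _) (by simp)
  rw [Finset.card_empty, add_zero, hF, htot] at hs0
  -- equality
  have hcard : (Ap A p).card = (Aq A p).card := by
    rcases le_or_gt (Ap A p).card (Aq A p).card with hmk | hmk
    · have h1 : (Aq A p).card • 1 ≤ ∑ a ∈ Aq A p, (good A p a).card :=
        Finset.card_nsmul_le_sum _ _ _ hg1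
      rw [smul_eq_mul, mul_one] at h1
      omega
    · exfalso
      obtain ⟨d, hd⟩ : ∃ d, (Ap A p).card = (Aq A p).card + d :=
        ⟨(Ap A p).card - (Aq A p).card, by omega⟩
      have h1 : (Aq A p).card • (d + 1) ≤ ∑ a ∈ Aq A p, (good A p a).card :=
        Finset.card_nsmul_le_sum _ _ _ fun a ha => by
          have := hg2 a ha
          show d + 1 ≤ _
          omega
      rw [smul_eq_mul] at h1
      have h2 : d ≤ (Aq A p).card * d := Nat.le_mul_of_pos_left d hA'ne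
      have hd1 : 1 ≤ d := by omega
      rw [hd] at hs0
      nlinarith
  have hgood : ∀ a ∈ Aq A p, (good A p a).card ≤ 1 := by
    intro a ha
    by_contra hcon
    have h1 : ∑ x ∈ Aq A p, 1 < ∑ x ∈ Aq A p, (good A p x).card :=
      Finset.sum_lt_sum hg1 ⟨a, ha, by omega⟩
    rw [Finset.sum_const, smul_eq_mul, mul_one] at h1
    omega
  have hthree : 3 ≤ (Aq A p).card := by
    by_contra hcon
    have hm : (Ap A p).card = 2 := by omega
    have hT : (Ap A p).offDiag ⊆ Fn A := by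
      intro x hx
      obtain ⟨hx1, hx2, hx3⟩ := Finset.mem_offDiag.1 hx
      refine mem_Fn.2 ⟨⟨(mem_Ap.1 hx1).1, (mem_Ap.1 hx2).1⟩, hx3, ?_⟩
      intro c hc h1 h2
      have hcp : dotProduct c p ≠ 0 := by
        intro h0
        have h4 : ({c, x.1, x.2} : Finset EQ.V3) ⊆ Ap A p := by
          intro y hy
          rcases Finset.mem_insert.1 hy with rfl | hy
          · exact mem_Ap.2 ⟨hc, h0⟩
          rcases Finset.mem_insert.1 hy with rfl | hy
          · exact hx1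
          · rw [Finset.mem_singleton.1 hy]; exact hx2
        have h5 := Finset.card_le_card h4
        rw [hm, Finset.card_eq_three.2 ⟨c, x.1, x.2, h1, h2, hx3, rfl⟩] at h5
        omega
      have h4 := li_of_through hA.li hcp (mem_Ap.1 hx1).1 (mem_Ap.1 hx1).2 (mem_Ap.1 hx2).1
        (mem_Ap.1 hx2).2 hx3
      exact li3_swap' (li3_swap h4)
    have h1 := two_sum_le (p := p) hA _ hT fun x hx =>
      ⟨(mem_Ap.1 (Finset.mem_offDiag.1 hx).1).2, (mem_Ap.1 (Finset.mem_offDiag.1 hx).2.1).2⟩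
    rw [Finset.offDiag_card, hm, hF, htot] at h1
    have h2 : (Aq A p).card • 1 ≤ ∑ a ∈ Aq A p, (good A p a).card :=
      Finset.card_nsmul_le_sum _ _ _ hg1
    rw [smul_eq_mul, mul_one] at h2
    omega
  choose! t ht using hex
  refine ⟨t, hthree, hcard, fun a ha => mem_Ap.2 (mem_good.1 (ht a ha)).1, ?_, ?_⟩
  · intro a ha b hb hba
    obtain ⟨hbA, hbp⟩ := mem_Aq.1 hb
    exact (mem_good.1 (ht a ha)).2 b hbA hbp hba
  · intro a ha
    exact sep hA hM hcard ha (hgood a ha)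

end Pool.Agent.Lib.MP_70c3c6_co.EQ
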