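import Pool.Agent.Lib.MP_70c3c6_co.EQ.Spec

/-! MP_70c3c6_co, the equality case: the module CRD (coordinates). -/

set_option autoImplicit false
open Classical

namespace Pool.Agent.Lib.MP_70c3c6_co.EQ

namespace CRDM

open MPss

variable {A : Finset V3} {p : V3}

lemma mem_Ap {c : V3} : c ∈ Ap A p ↔ c ∈ A ∧ dotProduct c p = 0 := by
  unfold Ap
  exact Finset.mem_filter

lemma mem_Aq {c : V3} : c ∈ Aq A p ↔ c ∈ A ∧ dotProduct c p ≠ 0 := by
  unfold Aq
  exact Finset.mem_filter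

/-- the line through `p` and the crossing of `a` and `b` -/
lemma exists_line (hA : Arr A) (hm : Mod A p) {a b : V3} (ha : a ∈ Aq A p) (hb : b ∈ Aq A p)
    (hab : a ≠ b) : ∃ c ∈ Ap A p, ∃ r : ℂ, r ≠ 0 ∧ vv p a b = r • c := by
  obtain ⟨ha1, ha2⟩ := mem_Aq.1 ha
  obtain ⟨hb1, hb2⟩ := mem_Aq.1 hb
  obtain ⟨c, hc, hcp, h3⟩ := hm.m a ha1 b hb1 hab fun h => ha2 h.1
  have h2 := hA.li a ha1 b hb1 hab
  obtain ⟨r, hr⟩ := vv_prop ha2 hb2 hcp (hA.nz c hc) h2 h3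
  refine ⟨c, mem_Ap.2 ⟨hc, hcp⟩, r, ?_, hr⟩
  rintro rfl
  exact vv_ne hb2 h2 (by rw [hr, zero_smul])

lemma not_li {a b c : V3} (hb2 : dotProduct b p ≠ 0) {r : ℂ} (hr : vv p a b = r • c) :
    ¬ LinearIndependent ℂ ![a, c, b] := by
  intro h
  have h1 := (li3_iff a c b).1 h (-(dotProduct a p)⁻¹) (-r) ((dotProduct b p)⁻¹) (by
    rw [neg_smul, neg_smul, ← hr, vv]
    abel)
  exact inv_ne_zero hb2 h1.2.2

/-- the forms -/
lemma forms (hA : Arr A) {a0 c1 c2 v : V3} (ha0 : a0 ∈ Aq A p) (hc1 : c1 ∈ Ap A p)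
    (hc2 : c2 ∈ Ap A p) (h12 : c1 ≠ c2) {r : ℂ} (hr : r ≠ 0) (hv : v = r • c1) :
    ∃ f0 f1 : V3 →ₗ[ℂ] ℂ, f0 a0 = 0 ∧ f1 a0 = 0 ∧ f0 v = 1 ∧ f1 v = 0 ∧
      (∀ w : V3, f0 w = 0 → f1 w = 0 → dotProduct w p = 0 → w = 0) ∧
      ∀ c ∈ Ap A p, f0 c ≠ 0 := by
  obtain ⟨ha1, ha2⟩ := mem_Aq.1 ha0
  obtain ⟨hc11, hc12⟩ := mem_Ap.1 hc1
  obtain ⟨hc21, hc22⟩ := mem_Ap.1 hc2
  have hli := (li3_iff _ _ _).1 (li_of_through hA.li ha2 hc11 hc12 hc21 hc22 h12)
  have hli' : LinearIndependent ℂ ![v, c2, a0] := by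
    rw [li3_iff]
    intro x y z h
    have h1 := hli z (x * r) y (by
      rw [← h, hv, smul_smul]
      abel)
    exact ⟨(mul_eq_zero.1 h1.2.1).resolve_right hr, h1.2.2, h1.1⟩
  let b := basisOfLinearIndependentOfCardEqFinrank hli' (by simp)
  have hb : ⇑b = ![v, c2, a0] := coe_basisOfLinearIndependentOfCardEqFinrank _ _
  have hb0 : b 0 = v := by rw [hb]; rfl
  have hb1 : b 1 = c2 := by rw [hb]; rfl
  have hb2 : b 2 = a0 := by rw [hb]; rfl
  have hrep : ∀ w : V3, w = b.coord 0 w • v + b.coord 1 w • c2 + b.coord 2 w • a0 := by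
    intro w
    have := b.sum_repr w
    rw [Fin.sum_univ_three, hb0, hb1, hb2] at this
    exact this.symm
  have hker : ∀ w : V3, b.coord 0 w = 0 → b.coord 1 w = 0 → dotProduct w p = 0 → w = 0 := by
    intro w h0 h1 h2
    have h3 := hrep w
    rw [h0, h1, zero_smul, zero_smul, zero_add, zero_add] at h3
    rw [h3, smul_dotProduct, smul_eq_mul] at h2
    rw [h3, (mul_eq_zero.1 h2).resolve_right ha2, zero_smul]
  obtain ⟨s, hs⟩ := Infinite.exists_notMem_finset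
    ((Ap A p).image fun c => b.coord 0 c / b.coord 1 c)
  refine ⟨b.coord 0 - s • b.coord 1, b.coord 1, ?_, ?_, ?_, ?_, ?_, ?_⟩
  · rw [← hb2]
    simp [Module.Basis.coord_apply]
  · rw [← hb2]
    simp [Module.Basis.coord_apply]
  · rw [← hb0]
    simp [Module.Basis.coord_apply]
  · rw [← hb0]
    simp [Module.Basis.coord_apply]
  · intro w h0 h1 h2
    refine hker w ?_ h1 h2
    rw [LinearMap.sub_apply, LinearMap.smul_apply, h1, smul_zero, sub_zero] at h0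
    exact h0
  · intro c hc h0
    obtain ⟨hc3, hc4⟩ := mem_Ap.1 hc
    rw [LinearMap.sub_apply, LinearMap.smul_apply, smul_eq_mul, sub_eq_zero] at h0
    by_cases h1 : b.coord 1 c = 0
    · rw [h1, mul_zero] at h0
      exact hA.nz c hc3 (hker c h0 h1 hc4)
    · refine hs (Finset.mem_image.2 ⟨c, hc, ?_⟩)
      rw [h0, mul_div_cancel_right₀ _ h1]

end CRDM

open MPss CRDM in
theorem specCRD : SpecCRD := by
  intro A p t hA hm ht
  obtain ⟨a0, ha0, a1, ha1, h01⟩ := Finset.one_lt_card.1 (show 1 < (Aq A p).card by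
    have := ht.three
    omega)
  obtain ⟨c1, hc1, r, hr, hv⟩ := exists_line hA hm ha0 ha1 h01
  obtain ⟨c2, hc2, h12⟩ := Finset.exists_mem_ne (show 1 < (Ap A p).card by
    rw [ht.card]
    have := ht.three
    omega) c1
  obtain ⟨f0, f1, e1, e2, e3, e4, hker, hne⟩ := forms hA ha0 hc1 hc2 h12.symm hr hv
  have q0 : ∀ a ∈ Aq A p, dotProduct a p ≠ 0 := fun a ha => (mem_Aq.1 ha).2
  have hvv : ∀ (f : V3 →ₗ[ℂ] ℂ) (a b : V3), f (vv p a b) =
      f b / dotProduct b p - f a / dotProduct a p := by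
    intro f a b
    rw [vv, map_sub, map_smul, map_smul, smul_eq_mul, smul_eq_mul, div_eq_inv_mul, div_eq_inv_mul]
  -- slopes are injective
  have hinj : ∀ c ∈ Ap A p, ∀ c' ∈ Ap A p, f1 c / f0 c = f1 c' / f0 c' → c = c' := by
    intro c hc c' hc' h
    by_contra hcc
    rw [div_eq_div_iff (hne c hc) (hne c' hc')] at h
    have h1 : f0 c' • c - f0 c • c' = 0 := by
      refine hker _ ?_ ?_ ?_
      · rw [map_sub, map_smul, map_smul, smul_eq_mul, smul_eq_mul]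
        ring
      · rw [map_sub, map_smul, map_smul, smul_eq_mul, smul_eq_mul]
        linear_combination h
      · rw [sub_dotProduct, smul_dotProduct, smul_dotProduct, (mem_Ap.1 hc).2, (mem_Ap.1 hc').2]
        simp
    have h2 := (li2_iff c c').1 (hA.li c (mem_Ap.1 hc).1 c' (mem_Ap.1 hc').1 hcc) (f0 c')
      (-f0 c) (by rw [← h1, neg_smul]; abel)
    exact hne c' hc' h2.1
  -- chords
  have hch : ∀ a ∈ Aq A p, ∀ b ∈ Aq A p, a ≠ b → ∃ c ∈ Ap A p,
      ¬ LinearIndependent ℂ ![a, c, b] ∧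
      f0 b / dotProduct b p - f0 a / dotProduct a p ≠ 0 ∧
      (f1 b / dotProduct b p - f1 a / dotProduct a p) /
        (f0 b / dotProduct b p - f0 a / dotProduct a p) = f1 c / f0 c := by
    intro a ha b hb hab
    obtain ⟨c, hc, s, hs, hsv⟩ := exists_line hA hm ha hb hab
    refine ⟨c, hc, not_li (q0 b hb) hsv, ?_, ?_⟩
    · rw [← hvv f0 a b, hsv, map_smul, smul_eq_mul]
      exact mul_ne_zero hs (hne c hc)
    · rw [← hvv f0 a b, ← hvv f1 a b, hsv, map_smul, map_smul, smul_eq_mul, smul_eq_mul,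
        mul_div_mul_left _ _ hs]
  refine ⟨f0, f1, fun a => f1 (t a.1) / f0 (t a.1), (Ap A p).image fun c => f1 c / f0 c,
    ⟨a0, ha0⟩, ⟨a1, ha1⟩, hker, ?_, e1, e2, ?_, ?_, ?_⟩
  · refine ⟨?_, ?_, ?_, ?_, ?_, ?_⟩
    · rintro ⟨a, ha⟩ ⟨b, hb⟩ h
      by_contra hab
      have hab' : a ≠ b := fun h' => hab (Subtype.ext h')
      obtain ⟨c, -, -, h1, -⟩ := hch a ha b hb hab'
      exact h1 (sub_eq_zero.2 h.symm)
    · rw [Finset.card_image_of_injOn fun c hc c' hc' h => hinj c hc c' hc' h, ht.card,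
        Fintype.card_coe]
    · intro a
      exact Finset.mem_image.2 ⟨t a.1, ht.mem a.1 a.2, rfl⟩
    · rintro ⟨a, ha⟩ ⟨b, hb⟩ hab
      have hab' : a ≠ b := fun h' => hab (Subtype.ext h')
      obtain ⟨c, hc, -, -, h1⟩ := hch a ha b hb hab'
      exact Finset.mem_image.2 ⟨c, hc, h1.symm⟩
    · rintro ⟨a, ha⟩ ⟨b, hb⟩ hab h
      have hab' : a ≠ b := fun h' => hab (Subtype.ext h')
      obtain ⟨c, hc, h2, -, h1⟩ := hch a ha b hb hab'
      have h3 : c = t a := hinj c hc (t a) (ht.mem a ha) (h1.symm.trans h)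
      rw [h3] at h2
      exact h2 (ht.tang a ha b hb hab'.symm)
    · rintro ⟨a, ha⟩ ⟨b, hb⟩ ⟨b', hb'⟩ hab hab' hbb h
      have k1 : a ≠ b := fun h' => hab (Subtype.ext h'.symm)
      have k2 : a ≠ b' := fun h' => hab' (Subtype.ext h'.symm)
      obtain ⟨c, hc, h2, -, h1⟩ := hch a ha b hb k1
      obtain ⟨c', hc', h2', -, h1'⟩ := hch a ha b' hb' k2
      have h3 : c = c' := hinj c hc c' hc' (h1.symm.trans (h.trans h1'))
      rw [← h3] at h2'
      exact hbb (Subtype.ext (ht.sep a ha c hc b hb b' hb' k1.symm k2.symm h2 h2'))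
  · have h1 := hvv f0 a0 a1
    rw [e3, e1, zero_div, sub_zero] at h1
    exact ((div_eq_one_iff_eq (q0 a1 ha1)).1 h1.symm)
  · have h1 := hvv f1 a0 a1
    rw [e4, e2, zero_div, sub_zero] at h1
    exact (div_eq_zero_iff.1 h1.symm).resolve_right (q0 a1 ha1)
  · intro c hc
    exact ⟨hne c hc, Finset.mem_image.2 ⟨c, hc, rfl⟩⟩

end Pool.Agent.Lib.MP_70c3c6_co.EQ
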