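import Pool.Agent.Lib.MP_70c3c6_co.EQ.Spec

/-!
MP_70c3c6_co, equality case, HYP: the points lie on a hyperbola.
-/

set_option autoImplicit false
open Classical

namespace Pool.Agent.Lib.MP_70c3c6_co.EQ

namespace HYPM

theorem prodE (hPRD : SpecPRD) {ι : Type} [Fintype ι] {x y τ : ι → ℂ} {E : Finset ℂ}
    (S : Sys x y τ E) (φ : ℂ → ℂ) (F : ι → ℂ) (i : ι) (h0 : φ (τ i) = F i)
    (h1 : ∀ j, j ≠ i → φ (ms x y i j) = F j) : ∏ e ∈ E, φ e = ∏ j, F j := by
  obtain ⟨h2, h3, h4⟩ := hPRD ι x y τ E S i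
  rw [h3, Finset.prod_insert h2, Finset.prod_image h4, h0]
  rw [← Finset.mul_prod_erase Finset.univ F (Finset.mem_univ i)]
  congr 1
  exact Finset.prod_congr rfl fun j hj => h1 j (Finset.ne_of_mem_erase hj)

theorem memE (hPRD : SpecPRD) {ι : Type} [Fintype ι] {x y τ : ι → ℂ} {E : Finset ℂ}
    (S : Sys x y τ E) (i : ι) {σ : ℂ} (hσ : σ ∈ E) :
    σ = τ i ∨ ∃ j, j ≠ i ∧ σ = ms x y i j := by
  obtain ⟨_, h3, _⟩ := hPRD ι x y τ E S i
  rw [h3, Finset.mem_insert, Finset.mem_image] at hσ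
  rcases hσ with h | ⟨j, hj, h⟩
  · exact Or.inl h
  · exact Or.inr ⟨j, Finset.ne_of_mem_erase hj, h.symm⟩

end HYPM

open HYPM in
theorem specHYP (hPRD : SpecPRD) : SpecHYP := by
  intro ι _ x y τ E S hn a1 b1 c1 a2 b2 c2 N hdet hN hq ht
  set u : ι → ℂ := fun i => a1 * x i + b1 * y i + c1 with hu
  set v : ι → ℂ := fun i => a2 * x i + b2 * y i + c2 with hv
  have huv : ∀ i, u i * v i = N := hq
  have hu0 : ∀ i, u i ≠ 0 := by
    intro i h
    apply hN
    rw [← huv i, h, zero_mul]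
  -- the common form of the relations
  have hrel : ∀ i j, j ≠ i → u i * u j * (a2 + b2 * ms x y i j) =
      - N * (a1 + b1 * ms x y i j) := by
    intro i j hij
    have hD : x j - x i ≠ 0 := sub_ne_zero.mpr fun h => hij (S.inj h)
    have hm : (x j - x i) * ms x y i j = y j - y i := by
      unfold ms
      rw [mul_div_cancel₀ _ hD]
    have e1 : u j - u i = (x j - x i) * (a1 + b1 * ms x y i j) := by
      have : u j - u i = a1 * (x j - x i) + b1 * (y j - y i) := by
        simp only [hu]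
        ring
      rw [this, ← hm]
      ring
    have e2 : v j - v i = (x j - x i) * (a2 + b2 * ms x y i j) := by
      have : v j - v i = a2 * (x j - x i) + b2 * (y j - y i) := by
        simp only [hv]
        ring
      rw [this, ← hm]
      ring
    have e3 := huv i
    have e4 := huv j
    apply mul_left_cancel₀ hD
    linear_combination (- u i * u j) * e2 - N * e1 + u i * e4 - u j * e3
  have hrelt : ∀ i, u i * u i * (a2 + b2 * τ i) = - N * (a1 + b1 * τ i) := by
    intro i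
    have e1 := ht i
    have e2 := huv i
    have e3 : u i * (a2 + b2 * τ i) + v i * (a1 + b1 * τ i) = 0 := e1
    linear_combination u i * e3 - (a1 + b1 * τ i) * e2
  have hrelE : ∀ i, ∀ σ ∈ E, ∃ j, u i * u j * (a2 + b2 * σ) = - N * (a1 + b1 * σ) := by
    intro i σ hσ
    rcases memE hPRD S i hσ with rfl | ⟨j, hj, rfl⟩
    · exact ⟨i, hrelt i⟩
    · exact ⟨j, hrel i j hj⟩
  obtain ⟨i0⟩ : Nonempty ι := by
    rw [← Fintype.card_pos_iff]
    omega
  have hnz : ∀ σ ∈ E, a1 + b1 * σ ≠ 0 := by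
    intro σ hσ h
    obtain ⟨j, hj⟩ := hrelE i0 σ hσ
    rw [h, mul_zero] at hj
    have h2 : a2 + b2 * σ = 0 :=
      (mul_eq_zero.mp hj).resolve_left (mul_ne_zero (hu0 _) (hu0 _))
    apply hdet
    linear_combination b2 * h - b1 * h2
  -- the product
  have hpow : ∀ i, (∏ e ∈ E, (a2 + b2 * e) / (a1 + b1 * e)) * (∏ j, u j) *
      u i ^ (Fintype.card ι) = (-N) ^ (Fintype.card ι) := by
    intro i
    have h1 := prodE hPRD S (fun e => (a2 + b2 * e) / (a1 + b1 * e))
      (fun j => -N / (u i * u j)) i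
      (by
        show (a2 + b2 * τ i) / (a1 + b1 * τ i) = -N / (u i * u i)
        rw [div_eq_div_iff (hnz _ (S.tau i)) (mul_ne_zero (hu0 i) (hu0 i))]
        linear_combination hrelt i)
      (by
        intro j hj
        show (a2 + b2 * ms x y i j) / (a1 + b1 * ms x y i j) = -N / (u i * u j)
        rw [div_eq_div_iff (hnz _ (S.chord i j (Ne.symm hj))) (mul_ne_zero (hu0 i) (hu0 j))]
        linear_combination hrel i j hj)
    rw [h1, Finset.prod_div_distrib, Finset.prod_mul_distrib, Finset.prod_const,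
      Finset.prod_const, Finset.card_univ]
    have h2 : ∏ j, u j ≠ 0 := Finset.prod_ne_zero_iff.mpr fun j _ => hu0 j
    have h3 : u i ^ Fintype.card ι ≠ 0 := pow_ne_zero _ (hu0 i)
    field_simp
  have hpow2 : ∀ i, (u i / u i0) ^ (Fintype.card ι) = 1 := by
    intro i
    have h1 := hpow i
    have h2 := hpow i0
    have h3 : (-N) ^ (Fintype.card ι) ≠ 0 := pow_ne_zero _ (neg_ne_zero.mpr hN)
    rw [← h2] at h1
    have h4 : (∏ e ∈ E, (a2 + b2 * e) / (a1 + b1 * e)) * (∏ j, u j) ≠ 0 := by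
      intro h
      rw [h, zero_mul] at h2
      exact h3 h2.symm
    have h5 := mul_left_cancel₀ h4 h1
    rw [div_pow, h5, div_self (pow_ne_zero _ (hu0 i0))]
  refine ⟨a1 / u i0, b1 / u i0, c1 / u i0, a2 * u i0 / N, b2 * u i0 / N, c2 * u i0 / N, ?_, ?_, ?_⟩
  · have h1 : a1 / u i0 * (b2 * u i0 / N) - a2 * u i0 / N * (b1 / u i0) =
        (a1 * b2 - a2 * b1) / N := by
      have := hu0 i0
      field_simp
    rw [h1]
    exact div_ne_zero hdet hN
  · intro i
    refine ⟨u i / u i0, hpow2 i, ?_, ?_⟩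
    · simp only [hu]
      ring
    · rw [inv_div]
      have h1 : a2 * u i0 / N * x i + b2 * u i0 / N * y i + c2 * u i0 / N = v i * u i0 / N := by
        simp only [hv]
        ring
      rw [h1, div_eq_div_iff hN (hu0 i)]
      linear_combination u i0 * huv i
  · intro σ hσ
    obtain ⟨j, hj⟩ := hrelE i0 σ hσ
    refine ⟨(u j / u i0)⁻¹, ?_, ?_⟩
    · rw [inv_pow, hpow2 j, inv_one]
    · rw [inv_div]
      have h0 := hu0 i0
      have h1 := hu0 j
      field_simp
      linear_combination hj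

end Pool.Agent.Lib.MP_70c3c6_co.EQ
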