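import Pool.Agent.Lib.MP_70c3c6_co.EQ.Spec

/-!
MP_70c3c6_co, equality case, PAR: the points do not lie on a parabola.
-/

set_option autoImplicit false
open Classical

namespace Pool.Agent.Lib.MP_70c3c6_co.EQ

namespace PARM

theorem sumE (hPRD : SpecPRD) {ι : Type} [Fintype ι] {x y τ : ι → ℂ} {E : Finset ℂ}
    (S : Sys x y τ E) (φ : ℂ → ℂ) (F : ι → ℂ) (i : ι) (h0 : φ (τ i) = F i)
    (h1 : ∀ j, j ≠ i → φ (ms x y i j) = F j) : ∑ e ∈ E, φ e = ∑ j, F j := by
  obtain ⟨h2, h3, h4⟩ := hPRD ι x y τ E S i
  rw [h3, Finset.sum_insert h2, Finset.sum_image h4, h0]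
  rw [← Finset.add_sum_erase Finset.univ F (Finset.mem_univ i)]
  congr 1
  exact Finset.sum_congr rfl fun j hj => h1 j (Finset.ne_of_mem_erase hj)

end PARM

open PARM in
theorem specPAR (hPRD : SpecPRD) : SpecPAR := by
  intro ι _ x y τ E S hn a b d k l ha hk hq ht
  set u : ι → ℂ := fun i => a * x i + b * y i + d with hu
  have hqu : ∀ i, u i ^ 2 + 2 * k * y i + l = 0 := hq
  have hrel : ∀ i j, j ≠ i → (u i + u j) * (a + b * ms x y i j) = - (2 * k * ms x y i j) := by
    intro i j hij
    have hD : x j - x i ≠ 0 := sub_ne_zero.mpr fun h => hij (S.inj h)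
    have hm : (x j - x i) * ms x y i j = y j - y i := by
      unfold ms
      rw [mul_div_cancel₀ _ hD]
    have e1 : u j - u i = (x j - x i) * (a + b * ms x y i j) := by
      have : u j - u i = a * (x j - x i) + b * (y j - y i) := by
        simp only [hu]
        ring
      rw [this, ← hm]
      ring
    have e3 := hqu i
    have e4 := hqu j
    apply mul_left_cancel₀ hD
    linear_combination (- (u i + u j)) * e1 + e4 - e3 + 2 * k * hm
  have hrelt : ∀ i, (u i + u i) * (a + b * τ i) = - (2 * k * τ i) := by
    intro i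
    have e1 : u i * (a + b * τ i) + k * τ i = 0 := ht i
    linear_combination 2 * e1
  have hnz : ∀ i, a + b * τ i ≠ 0 ∧ ∀ j, j ≠ i → a + b * ms x y i j ≠ 0 := by
    intro i
    constructor
    · intro h
      have h1 := hrelt i
      rw [h, mul_zero] at h1
      have h2 : τ i = 0 := by
        have h3 : (2 * k) * τ i = 0 := by linear_combination h1
        exact (mul_eq_zero.mp h3).resolve_left (mul_ne_zero two_ne_zero hk)
      rw [h2, mul_zero, add_zero] at h
      exact ha h
    · intro j hj h
      have h1 := hrel i j hj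
      rw [h, mul_zero] at h1
      have h2 : ms x y i j = 0 := by
        have h3 : (2 * k) * ms x y i j = 0 := by linear_combination h1
        exact (mul_eq_zero.mp h3).resolve_left (mul_ne_zero two_ne_zero hk)
      rw [h2, mul_zero, add_zero] at h
      exact ha h
  have hsum : ∀ i, ∑ e ∈ E, (2 * k * e) / (a + b * e) =
      - ((Fintype.card ι : ℂ) * u i + ∑ j, u j) := by
    intro i
    have h1 := sumE hPRD S (fun e => (2 * k * e) / (a + b * e))
      (fun j => - (u i + u j)) i
      (by
        show (2 * k * τ i) / (a + b * τ i) = - (u i + u i)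
        rw [div_eq_iff (hnz i).1]
        linear_combination hrelt i)
      (by
        intro j hj
        show (2 * k * ms x y i j) / (a + b * ms x y i j) = - (u i + u j)
        rw [div_eq_iff ((hnz i).2 j hj)]
        linear_combination hrel i j hj)
    rw [h1, Finset.sum_neg_distrib, Finset.sum_add_distrib, Finset.sum_const, Finset.card_univ,
      nsmul_eq_mul]
  obtain ⟨i, j, hij⟩ : ∃ i j : ι, i ≠ j := by
    have : 1 < Fintype.card ι := by omega
    exact Fintype.exists_pair_of_one_lt_card this
  have h1 := hsum i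
  have h2 := hsum j
  rw [h1] at h2
  have hc : (Fintype.card ι : ℂ) ≠ 0 := by
    exact_mod_cast (by omega : Fintype.card ι ≠ 0)
  have h3 : u i = u j := by
    apply mul_left_cancel₀ hc
    linear_combination -h2
  have h4 : y i = y j := by
    have e3 := hqu i
    have e4 := hqu j
    rw [h3] at e3
    apply mul_left_cancel₀ (mul_ne_zero two_ne_zero hk)
    linear_combination e3 - e4
  have h5 : x i = x j := by
    apply mul_left_cancel₀ ha
    have h6 : a * x i + b * y i + d = a * x j + b * y j + d := h3
    linear_combination h6 - b * h4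
  exact hij (S.inj h5)

end Pool.Agent.Lib.MP_70c3c6_co.EQ
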