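import Pool.Agent.Lib.MP_70c3c6_co.EQ.Spec

/-! Module PRD (helper10). -/

set_option autoImplicit false
open Classical

namespace Pool.Agent.Lib.MP_70c3c6_co.EQ

theorem specPRD : SpecPRD := by
  intro ι _ x y τ E hS i
  have h1 : τ i ∉ (Finset.univ.erase i).image (ms x y i) := by
    intro h
    obtain ⟨j, hj, hjt⟩ := Finset.mem_image.1 h
    exact hS.tang i j (Finset.ne_of_mem_erase hj).symm hjt
  have h3 : Set.InjOn (ms x y i) ((Finset.univ.erase i : Finset ι) : Set ι) := by
    intro j hj l hl hjl
    by_contra hne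
    exact hS.sep i j l (Finset.ne_of_mem_erase (Finset.mem_coe.1 hj))
      (Finset.ne_of_mem_erase (Finset.mem_coe.1 hl)) hne hjl
  refine ⟨h1, ?_, h3⟩
  symm
  apply Finset.eq_of_subset_of_card_le
  · intro e he
    rcases Finset.mem_insert.1 he with h | h
    · rw [h]
      exact hS.tau i
    · obtain ⟨j, hj, hjt⟩ := Finset.mem_image.1 h
      rw [← hjt]
      exact hS.chord i j (Finset.ne_of_mem_erase hj).symm
  · rw [Finset.card_insert_of_notMem h1, Finset.card_image_of_injOn h3,
      Finset.card_erase_of_mem (Finset.mem_univ i), Finset.card_univ, hS.card]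
    have : 0 < Fintype.card ι := Fintype.card_pos_iff.2 ⟨i⟩
    omega

end Pool.Agent.Lib.MP_70c3c6_co.EQ
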