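import Pool.Agent.Lib.MP_70c3c6_co.Geom

/-!
MP_70c3c6_co, the equality case.  A complex supersolvable arrangement of s lines, not a pencil, has
exactly s/2 double points iff s = 2n with n at least 3 and it is projectively the arrangement
dual to the points (z, 1/z, 1), (1, -z, 0), z running over the n-th roots of unity.

Plan.  In coordinates with p = (0,0,1) the n lines off p are points P_i = (x_i, y_i) of the affine
plane, the n lines through p are directions (slopes in a set E, after making no direction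
vertical).  Equality forces: every P_i sees every direction but one (the tangent direction tau_i)
exactly once.

SLP (lemma of tangents).  F = the product of (X - e), e in E.  For i, j distinct, m = m_ij,
F'(m) = (m - tau_i) * prod_l (m - m_il) = (m - tau_j) * prod_l (m - m_jl) (l not i, j), and
(m_ij - m_il)(x_l - x_i) = (m_ij - m_jl)(x_l - x_j).  So with A_i = prod_l (x_l - x_i),
(m - tau_i) A_j = (m - tau_j) A_i; with G_i = prod over all l other than i of (x_l - x_i)
= A_i (x_j - x_i) this is (m - tau_i) G_j = -(m - tau_j) G_i; take g_i = 1 / G_i.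

CON (conic).  h_i = tau_i g_i; (x_0,y_0) = (0,0), (x_1,y_1) = (1,0).  The identity for (0,1) gives
h_1 = -h_0; those for (0,i), (1,i) give by subtraction -h_i = 2 h_0 x_i + b y_i - h_0,
b = g_1 - g_0.  With c_i = (g_i - b x_i - g_0)/y_i (y_i nonzero) the identity for (0,i) says
2h_0 x_i^2 + 2b x_i y_i + c_i y_i^2 - 2h_0 x_i + 2g_0 y_i = 0, and the identity for (i,j) then gives
y_i y_j (c_i - c_j) = 0.

HYP, PAR.  a = 2h_0, d = -h_0, e = g_0, r^2 = b^2 - a c, k = a e - b d, l = -d^2.
(a x + b y + d)^2 - r^2 y^2 + 2 k y + l = 0.  If r is nonzero: u = (a x+b y+d) - (r y - k/r),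
v = (a x+b y+d) + (r y - k/r), u v = N, N nonzero, chord slope dv/du = -N/(u_i u_j), tangent slope
-N/u_i^2; the product over E gives u_i^n constant.  If r = 0: u = a x+b y+d, u^2 + 2 k y + l = 0,
k nonzero, chord slope dy/du = -(u_i+u_j)/(2k), tangent -2u_i/(2k), the sum over E gives n u_i
constant, impossible.
-/

set_option autoImplicit false
open Classical

namespace Pool.Agent.Lib.MP_70c3c6_co.EQ

abbrev V3 := Fin 3 → ℂ

/-- ordered pairs of lines crossing at a double point -/
noncomputable def Fn (A : Finset V3) : Finset (V3 × V3) :=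
  (A ×ˢ A).filter (fun x => x.1 ≠ x.2 ∧
        ∀ c ∈ A, c ≠ x.1 → c ≠ x.2 → LinearIndependent ℂ ![x.1, x.2, c])

/-- an arrangement, not a pencil -/
structure Arr (A : Finset V3) : Prop where
  nz : ∀ a ∈ A, a ≠ 0
  li : ∀ a ∈ A, ∀ b ∈ A, a ≠ b → LinearIndependent ℂ ![a, b]
  np : ∃ a ∈ A, ∃ b ∈ A, ∃ c ∈ A, LinearIndependent ℂ ![a, b, c]

/-- `p` is a modular point -/
structure Mod (A : Finset V3) (p : V3) : Prop where
  nz : p ≠ 0
  two : ∃ a ∈ A, ∃ b ∈ A, a ≠ b ∧ dotProduct a p = 0 ∧ dotProduct b p = 0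
  m : ∀ a ∈ A, ∀ b ∈ A, a ≠ b → ¬ (dotProduct a p = 0 ∧ dotProduct b p = 0) →
          ∃ c ∈ A, dotProduct c p = 0 ∧ ¬ LinearIndependent ℂ ![a, b, c]

/-- the lines through `p` -/
noncomputable def Ap (A : Finset V3) (p : V3) : Finset V3 := A.filter fun c => dotProduct c p = 0

/-- the lines off `p` -/
noncomputable def Aq (A : Finset V3) (p : V3) : Finset V3 := A.filter fun c => dotProduct c p ≠ 0

/-- the combinatorial content of equality -/
structure Eqc (A : Finset V3) (p : V3) (t : V3 → V3) : Prop where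
  three : 3 ≤ (Aq A p).card
  card : (Ap A p).card = (Aq A p).card
  mem : ∀ a ∈ Aq A p, t a ∈ Ap A p
  tang : ∀ a ∈ Aq A p, ∀ b ∈ Aq A p, b ≠ a → LinearIndependent ℂ ![a, t a, b]
  sep : ∀ a ∈ Aq A p, ∀ c ∈ Ap A p, ∀ b ∈ Aq A p, ∀ b' ∈ Aq A p, b ≠ a → b' ≠ a →
    ¬ LinearIndependent ℂ ![a, c, b] → ¬ LinearIndependent ℂ ![a, c, b'] → b = b'

/-- the slope of a chord -/
noncomputable def ms {ι : Type} (x y : ι → ℂ) (i j : ι) : ℂ := (y j - y i) / (x j - x i)

/-- a system of points and slopes -/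
structure Sys {ι : Type} [Fintype ι] (x y τ : ι → ℂ) (E : Finset ℂ) : Prop where
  inj : Function.Injective x
  card : E.card = Fintype.card ι
  tau : ∀ i, τ i ∈ E
  chord : ∀ i j, i ≠ j → ms x y i j ∈ E
  tang : ∀ i j, i ≠ j → ms x y i j ≠ τ i
  sep : ∀ i j l, j ≠ i → l ≠ i → j ≠ l → ms x y i j ≠ ms x y i l

/-- CNT.  Proof: as `MPss.main` in Geom.lean.  Let m, k be the numbers of lines through and off p,
good a the set of c in Ap with LI(a,c,b) for all b off p other than a; good a is nonempty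
(`exists_double`), m + 1 is at most card (good a) + k (`count_line`), twice the sum of
card (good a) is at most card Fn = m + k.  If m is at most k this gives m = k and
card (good a) = 1; if m = k + d, d positive, then 2k(d+1) is at most 2k + d, absurd.  If m = 2 the
pairs (c1,c2), (c2,c1) of the two lines through p are in Fn as well (they are pairs of lines through
p, so not among the others): card Fn is at least 2k+2, absurd.  t a = the element of good a.  sep:
every c in Ap other than t a has some b (c is not good), which gives a map from Ap minus t a to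
Aq minus a, injective as in `count_line`, hence (equal finite cardinalities) onto: b = g(c1),
b' = g(c2); by the same argument c1 = c = c2 (`vv_prop`: both vv p a b = r c1 = r' c). -/
def SpecCNT : Prop := ∀ (A : Finset V3) (p : V3), Arr A → Mod A p → (Fn A).card = A.card →
  ∃ t : V3 → V3, Eqc A p t

/-- CRD.  Proof: pick a0, a1 distinct in Aq, v = vv p a0 a1 = r c1, c1 in Ap (`vv_prop`), r not 0,
and c2 in Ap other than c1; w = c2 + s v with s outside a finite set, such that w is not
proportional to any c in Ap (each c in Ap excludes at most one s).  (v, w, a0) is a basis; f0, f1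
its first two coordinate forms.  Then for c in Ap: c = f0 c v + f1 c w, f0 c is not 0, E = the image
of Ap under f1/f0 (injective on Ap).  For b in Aq: (b.p)⁻¹ b = x v + y w + (a0.p)⁻¹ a0, so
vv p a b = (x_b - x_a) v + (y_b - y_a) w, proportional to the c in Ap given by Mod
(`vv_prop`), whence x_b - x_a is not 0 and the chord slope is f1 c/f0 c.  tau a = f1/f0 of t a.
tang, sep: if a chord from a to b has slope f1 c/f0 c then vv p a b is proportional to c and
LI(a,c,b) fails. -/
def SpecCRD : Prop := ∀ (A : Finset V3) (p : V3) (t : V3 → V3), Arr A → Mod A p → Eqc A p t →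
  ∃ (f0 f1 : V3 →ₗ[ℂ] ℂ) (τ : {a // a ∈ Aq A p} → ℂ) (E : Finset ℂ)
    (i0 i1 : {a // a ∈ Aq A p}),
    (∀ w : V3, f0 w = 0 → f1 w = 0 → dotProduct w p = 0 → w = 0) ∧
    Sys (fun a : {a // a ∈ Aq A p} => f0 a.1 / dotProduct a.1 p)
      (fun a : {a // a ∈ Aq A p} => f1 a.1 / dotProduct a.1 p) τ E ∧
    f0 i0.1 = 0 ∧ f1 i0.1 = 0 ∧ f0 i1.1 = dotProduct i1.1 p ∧ f1 i1.1 = 0 ∧
    ∀ c ∈ Ap A p, f0 c ≠ 0 ∧ f1 c / f0 c ∈ E

/-- PRD: E = insert (tau i) (image of m_i. on the other indices) -/
def SpecPRD : Prop := ∀ (ι : Type) [Fintype ι] (x y τ : ι → ℂ) (E : Finset ℂ),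
  Sys x y τ E → ∀ i : ι, τ i ∉ (Finset.univ.erase i).image (ms x y i) ∧
    E = insert (τ i) ((Finset.univ.erase i).image (ms x y i)) ∧
    Set.InjOn (ms x y i) ((Finset.univ.erase i : Finset ι) : Set ι)

/-- SLP, the lemma of tangents -/
def SpecSLP : Prop := ∀ (ι : Type) [Fintype ι] (x y τ : ι → ℂ) (E : Finset ℂ),
  Sys x y τ E → ∃ g : ι → ℂ, (∀ i, g i ≠ 0) ∧
    ∀ i j, (y j - y i) * (g i + g j) = (x j - x i) * (τ i * g i + τ j * g j)

/-- CON, the conic -/
def SpecCON : Prop := ∀ (ι : Type) (x y g h : ι → ℂ) (i0 i1 : ι),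
  (∀ i j, (y j - y i) * (g i + g j) = (x j - x i) * (h i + h j)) →
  x i0 = 0 → y i0 = 0 → x i1 = 1 → y i1 = 0 → (∃ i, y i ≠ 0) →
  (∀ i, y i = 0 → i = i0 ∨ i = i1) →
  ∃ b c : ℂ, ∀ i, - h i = 2 * h i0 * x i + b * y i - h i0 ∧ g i = b * x i + c * y i + g i0 ∧
    2 * h i0 * x i ^ 2 + 2 * b * x i * y i + c * y i ^ 2 - 2 * h i0 * x i + 2 * g i0 * y i = 0

/-- the conclusion of the analytic part -/
def Concl {ι : Type} [Fintype ι] (x y : ι → ℂ) (E : Finset ℂ) : Prop :=
  ∃ a1 b1 c1 a2 b2 c2 : ℂ, a1 * b2 - a2 * b1 ≠ 0 ∧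
    (∀ i, ∃ ζ : ℂ, ζ ^ (Fintype.card ι) = 1 ∧ a1 * x i + b1 * y i + c1 = ζ ∧
      a2 * x i + b2 * y i + c2 = ζ⁻¹) ∧
    ∀ σ ∈ E, ∃ ω : ℂ, ω ^ (Fintype.card ι) = 1 ∧ a2 + b2 * σ = - ω * (a1 + b1 * σ)

/-- HYP, the hyperbola.  u v = N in the affine coordinates u, v, tangent direction:
u dv + v du = 0. -/
def SpecHYP : Prop := ∀ (ι : Type) [Fintype ι] (x y τ : ι → ℂ) (E : Finset ℂ),
  Sys x y τ E → 3 ≤ Fintype.card ι → ∀ a1 b1 c1 a2 b2 c2 N : ℂ, a1 * b2 - a2 * b1 ≠ 0 → N ≠ 0 →
  (∀ i, (a1 * x i + b1 * y i + c1) * (a2 * x i + b2 * y i + c2) = N) →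
  (∀ i, (a1 * x i + b1 * y i + c1) * (a2 + b2 * τ i) +
    (a2 * x i + b2 * y i + c2) * (a1 + b1 * τ i) = 0) → Concl x y E

/-- PAR, the parabola is impossible -/
def SpecPAR : Prop := ∀ (ι : Type) [Fintype ι] (x y τ : ι → ℂ) (E : Finset ℂ),
  Sys x y τ E → 3 ≤ Fintype.card ι → ∀ a b d k l : ℂ, a ≠ 0 → k ≠ 0 →
  (∀ i, (a * x i + b * y i + d) ^ 2 + 2 * k * y i + l = 0) →
  (∀ i, (a * x i + b * y i + d) * (a + b * τ i) + k * τ i = 0) → False

/-- ANA, the analytic part: SLP, CON, then HYP or PAR. -/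
def SpecANA : Prop := ∀ (ι : Type) [Fintype ι] (x y τ : ι → ℂ) (E : Finset ℂ) (i0 i1 : ι),
  Sys x y τ E → 3 ≤ Fintype.card ι → x i0 = 0 → y i0 = 0 → x i1 = 1 → y i1 = 0 → Concl x y E

/-- the standard form -/
def Std (A : Finset V3) : Prop := ∃ n : ℕ, 3 ≤ n ∧ A.card = 2 * n ∧
  ∃ M : V3 ≃ₗ[ℂ] V3, ∀ a ∈ A, ∃ ζ : ℂ, ζ ^ n = 1 ∧ ∃ c : ℂ, c ≠ 0 ∧
    (M a = c • ![ζ, ζ⁻¹, 1] ∨ M a = c • ![1, -ζ, 0])

/-- FWD: from CNT, CRD, ANA; M w = (a1 f0 w + b1 f1 w + c1 (w.p), a2 .. , w.p), injective. -/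
def SpecFWD : Prop := ∀ (A : Finset V3) (p : V3), Arr A → Mod A p → (Fn A).card = A.card → Std A

/-- BCK.  Proof: L = the elements of A whose image has nonzero third coordinate (type z), V = the
others (type w).  Sending a to its z (resp. w) is injective on L (resp. V) because the elements
of A are pairwise independent, into the set R of the n-th roots of unity, card R at most n
(`Polynomial.nthRootsFinset`); card A = 2n, so card L = card V = n and both maps are onto R.
A pair in Fn: two elements of L with z, z' are dependent with the element of V with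
w = 1/(z z'); two elements of V are dependent with a third one (n at least 3); a in L with z
and b in V with w are dependent with the element of L with z' = 1/(z w) unless z' = z, i.e.
w = 1/z^2.  So the pairs of Fn with first entry in L inject into L by the first entry (the second
is determined up to proportionality), those with second entry in L by the second, and these are
all: card Fn is at most 2n. -/
def SpecBCK : Prop := ∀ A : Finset V3, Arr A → Std A → (Fn A).card ≤ A.card

end Pool.Agent.Lib.MP_70c3c6_co.EQ
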